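import Pool.Agent.helper90.FL.Spec

/-!
# Project FL, row IDL (helper51): contraction of an independent set
-/

set_option autoImplicit false

namespace Pool.Agent.helper90.FL

open Finset Polynomial
open scoped Classical

theorem IDL : IDL_stmt := by
  intro V E s t hR x n hpos I
  induction I using Finset.induction_on with
  | empty =>
    intro A B _ _ _
    rw [sdiff_empty, union_empty]
  | insert e I' he ih =>
    intro A B hIA hA hInd
    have heA : e ∈ A := hIA (mem_insert_self e I')
    have hnl : ¬ Lp s t B e := by
      intro hL
      have h1 := hInd e (mem_insert_self e I')
      rw [erase_insert he] at h1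
      exact h1 fun S hS => hL S fun e' he' => hS e' (mem_union_left _ he')
    have hcard : (A.erase e).card ≤ n := by
      rw [card_erase_of_mem heA]
      omega
    have h1 : Pv s t A B x ≤ Pv s t (A.erase e) (insert e B) x := by
      rw [hR.nonloop A B e x heA hnl]
      have := hpos (A.erase e) B hcard
      linarith
    have hInd' : Ind s t (insert e B) I' := by
      intro e' he' hL
      have hne : e ≠ e' := fun h => he (by rw [h]; exact he')
      apply hInd e' (mem_insert_of_mem he')
      have h2 : B ∪ (insert e I').erase e' = insert e B ∪ I'.erase e' := by
        rw [erase_insert_of_ne hne, union_insert, insert_union]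
      rw [h2]
      exact hL
    have hsub : I' ⊆ A.erase e := by
      intro e' he'
      rw [mem_erase]
      exact ⟨fun h => he (by rw [← h]; exact he'), hIA (mem_insert_of_mem he')⟩
    have h3 := ih (A.erase e) (insert e B) hsub (by omega) hInd'
    have h4 : (A.erase e) \ I' = A \ insert e I' := by
      ext z
      simp only [mem_sdiff, mem_erase, mem_insert, not_or]
      tauto
    have h5 : insert e B ∪ I' = B ∪ insert e I' := by
      rw [insert_union, union_insert]
    rw [h4, h5] at h3
    exact h1.trans h3

end Pool.Agent.helper90.FL
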